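import Pool.Agent.Helper10.SP.GoalsA
import Pool.Agent.Helper95.Lin.Basics
import Pool.Agent.Helper16.Abund.Semi
import Pool.Agent.Helper92.Orb.Group

set_option autoImplicit false

/-! # KHOL: the kernel field of the curvature is holomorphic -/

open Complex Metric Set Filter Topology MeasureTheory
open scoped ContDiff ComplexConjugate ComplexOrder Manifold Matrix

namespace Pool.Agent.Helper64.SP

open Pool.Agent.Helper95.Lin Pool.Agent.Helper16.Abund Pool.Agent.Helper92.Orb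
open Pool.Agent.Helper10.SP

universe u v

/-- Local inverse of a holomorphic map with invertible differential. -/
theorem exists_inv {n : ℕ} {U : Set (Cn n)} (hU : IsOpen U) {F : Cn n → Cn n}
    (hF : DifferentiableOn ℂ F U) {x₀ : Cn n} (hx : x₀ ∈ U)
    (hdet : ∀ x ∈ U, (fderiv ℂ F x).det ≠ 0) :
    ∃ e : OpenPartialHomeomorph (Cn n) (Cn n), x₀ ∈ e.source ∧ e.source ⊆ U ∧ (∀ x, e x = F x) ∧
      DifferentiableOn ℂ e.symm e.target := by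
  have hc : ContDiffAt ℂ ∞ F x₀ := (holo_contDiffOn hU hF).contDiffAt (hU.mem_nhds hx)
  have hfd : HasFDerivAt F
      (((fderiv ℂ F x₀).toContinuousLinearEquivOfDetNeZero (hdet _ hx) : Cn n ≃L[ℂ] Cn n) :
        Cn n →L[ℂ] Cn n) x₀ := by
    rw [ContinuousLinearMap.coe_toContinuousLinearEquivOfDetNeZero]
    exact (hF.differentiableAt (hU.mem_nhds hx)).hasFDerivAt
  let e₀ := hc.toOpenPartialHomeomorph F hfd (by simp)
  have he₀ : ∀ x, e₀ x = F x := fun x => rfl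
  have hx₀ : x₀ ∈ e₀.source := hc.mem_toOpenPartialHomeomorph_source hfd (by simp)
  refine ⟨e₀.restrOpen U hU, ?_, ?_, he₀, ?_⟩
  · exact ⟨hx₀, hx⟩
  · exact fun x hx => hx.2
  · intro y hy
    have hxs := (e₀.restrOpen U hU).map_target hy
    have hxU : (e₀.restrOpen U hU).symm y ∈ U := hxs.2
    have hd : HasFDerivAt (e₀.restrOpen U hU)
        (((fderiv ℂ F ((e₀.restrOpen U hU).symm y)).toContinuousLinearEquivOfDetNeZero
          (hdet _ hxU) : Cn n ≃L[ℂ] Cn n) : Cn n →L[ℂ] Cn n) ((e₀.restrOpen U hU).symm y) := by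
      rw [ContinuousLinearMap.coe_toContinuousLinearEquivOfDetNeZero]
      exact (hF.differentiableAt (hU.mem_nhds hxU)).hasFDerivAt
    exact ((e₀.restrOpen U hU).hasFDerivAt_symm hy hd).differentiableAt.differentiableWithinAt

section transition

variable {b : ℕ} {G : Type u} {M : Type v} [Group G] [MulAction G M]
  [TopologicalSpace M] [ChartedSpace (Fin (b + 1) → ℂ) M]
  [IsManifold 𝓘(ℂ, Fin (b + 1) → ℂ) ω M] {h : M → Matrix (Fin (b + 1)) (Fin (b + 1)) ℂ}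
  {v : M → ℝ}

/-- The transition map between two parametrizations, up to the action of `γ`. -/
theorem transition (hD : Data b G M h v) {V₁ V₂ : Set (Cn (b + 1))} {ψ₁ ψ₂ : Cn (b + 1) → M}
    (h₁ : Par (b + 1) ψ₁ V₁) (h₂ : Par (b + 1) ψ₂ V₂) {z₁ z₂ : Cn (b + 1)} (hz₁ : z₁ ∈ V₁)
    (hz₂ : z₂ ∈ V₂) (γ : G) (heq : ψ₂ z₂ = γ • ψ₁ z₁) :
    ∃ (W' : Set (Cn (b + 1))) (φ : Cn (b + 1) → Cn (b + 1)), IsOpen W' ∧ z₁ ∈ W' ∧ W' ⊆ V₁ ∧
      DifferentiableOn ℂ φ W' ∧ MapsTo φ W' V₂ ∧ φ z₁ = z₂ ∧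
      (∀ z ∈ W', (fderiv ℂ φ z).det ≠ 0) ∧ (∀ z ∈ W', ψ₂ (φ z) = γ • ψ₁ z) ∧
      ∀ z ∈ W', lpot (b + 1) v ψ₁ z =
        lpot (b + 1) v ψ₂ (φ z) + Real.log (‖(fderiv ℂ φ z).det‖ ^ 2) := by
  obtain ⟨⟨hV₁, hm₁⟩, hj₁⟩ := h₁
  obtain ⟨⟨hV₂, hm₂⟩, hj₂⟩ := h₂
  set χ := chartAt (Fin (b + 1) → ℂ) (ψ₂ z₂) with hχ
  have hc₂ : ContinuousOn ψ₂ V₂ := hm₂.continuousOn
  have hU₂ : IsOpen (V₂ ∩ ψ₂ ⁻¹' χ.source) := hc₂.isOpen_inter_preimage hV₂ χ.open_source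
  have hmF : ∀ z ∈ V₂ ∩ ψ₂ ⁻¹' χ.source,
      MDifferentiableAt 𝓘(ℂ, Fin (b + 1) → ℂ) 𝓘(ℂ, Fin (b + 1) → ℂ) (χ ∘ ψ₂) z := by
    intro z hz
    exact ((mdiff_chart (ψ₂ z₂)).mdifferentiableAt (χ.open_source.mem_nhds hz.2)).comp z
      (hm₂.mdifferentiableAt (hV₂.mem_nhds hz.1))
  have hF : DifferentiableOn ℂ (χ ∘ ψ₂) (V₂ ∩ ψ₂ ⁻¹' χ.source) := fun z hz =>
    (mdifferentiableAt_iff_differentiableAt.1 (hmF z hz)).differentiableWithinAt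
  have hdet : ∀ z ∈ V₂ ∩ ψ₂ ⁻¹' χ.source, (fderiv ℂ (χ ∘ ψ₂) z).det ≠ 0 := by
    intro z hz
    rw [← jac_eq_fderiv, jac_comp ((mdiff_chart (ψ₂ z₂)).mdifferentiableAt
      (χ.open_source.mem_nhds hz.2)) (hm₂.mdifferentiableAt (hV₂.mem_nhds hz.1))]
    refine mul_ne_zero ?_ (hj₂ z hz.1)
    have hs : MDifferentiableAt 𝓘(ℂ, Fin (b + 1) → ℂ) 𝓘(ℂ, Fin (b + 1) → ℂ) χ.symm
        (χ (ψ₂ z)) :=
      (mdiff_chart_symm (ψ₂ z₂)).mdifferentiableAt (χ.open_target.mem_nhds (χ.map_source hz.2))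
    have h1 : MDifferentiableAt 𝓘(ℂ, Fin (b + 1) → ℂ) 𝓘(ℂ, Fin (b + 1) → ℂ) χ (ψ₂ z) :=
      (mdiff_chart (ψ₂ z₂)).mdifferentiableAt (χ.open_source.mem_nhds hz.2)
    have := jac_mul_eq_one hs h1 (by
      filter_upwards [χ.open_source.mem_nhds hz.2] with w hw
      exact χ.left_inv hw)
    intro h0
    rw [h0, mul_zero] at this
    exact zero_ne_one this
  have hz₂U : z₂ ∈ V₂ ∩ ψ₂ ⁻¹' χ.source := ⟨hz₂, mem_chart_source _ _⟩
  obtain ⟨e, hze, heU, hee, hes⟩ := exists_inv hU₂ hF hz₂U hdet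
  have hmg : ∀ z ∈ V₁, MDifferentiableAt 𝓘(ℂ, Fin (b + 1) → ℂ) 𝓘(ℂ, Fin (b + 1) → ℂ)
      (fun w => γ • ψ₁ w) z := fun z hz =>
    (hD.act.holo γ (ψ₁ z)).comp z (hm₁.mdifferentiableAt (hV₁.mem_nhds hz))
  have hcg : ContinuousOn (fun w => γ • ψ₁ w) V₁ := fun z hz =>
    (hmg z hz).continuousAt.continuousWithinAt
  have hO₁ : IsOpen (V₁ ∩ (fun w => γ • ψ₁ w) ⁻¹' χ.source) :=
    hcg.isOpen_inter_preimage hV₁ χ.open_source
  have hmχ : ∀ z ∈ V₁ ∩ (fun w => γ • ψ₁ w) ⁻¹' χ.source,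
      MDifferentiableAt 𝓘(ℂ, Fin (b + 1) → ℂ) 𝓘(ℂ, Fin (b + 1) → ℂ)
      (fun w => χ (γ • ψ₁ w)) z := fun z hz =>
    ((mdiff_chart (ψ₂ z₂)).mdifferentiableAt (χ.open_source.mem_nhds hz.2)).comp z
      (hmg z hz.1)
  have hcχ : ContinuousOn (fun w => χ (γ • ψ₁ w)) (V₁ ∩ (fun w => γ • ψ₁ w) ⁻¹' χ.source) :=
    fun z hz => (hmχ z hz).continuousAt.continuousWithinAt
  have hW' : IsOpen ((V₁ ∩ (fun w => γ • ψ₁ w) ⁻¹' χ.source) ∩
      (fun w => χ (γ • ψ₁ w)) ⁻¹' e.target) := hcχ.isOpen_inter_preimage hO₁ e.open_target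
  have hφd : DifferentiableOn ℂ (fun w => e.symm (χ (γ • ψ₁ w)))
      ((V₁ ∩ (fun w => γ • ψ₁ w) ⁻¹' χ.source) ∩ (fun w => χ (γ • ψ₁ w)) ⁻¹' e.target) := by
    refine hes.comp (fun z hz => ?_) (fun z hz => hz.2)
    exact (mdifferentiableAt_iff_differentiableAt.1 (hmχ z hz.1)).differentiableWithinAt
  have hφψ : ∀ z ∈ (V₁ ∩ (fun w => γ • ψ₁ w) ⁻¹' χ.source) ∩
      (fun w => χ (γ • ψ₁ w)) ⁻¹' e.target, e.symm (χ (γ • ψ₁ z)) ∈ V₂ ∧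
      ψ₂ (e.symm (χ (γ • ψ₁ z))) = γ • ψ₁ z := by
    intro z hz
    have hs := e.map_target hz.2
    have hU := heU hs
    refine ⟨hU.1, ?_⟩
    have h3 : χ (ψ₂ (e.symm (χ (γ • ψ₁ z)))) = χ (γ • ψ₁ z) := by
      have h4 := e.right_inv hz.2
      rw [hee] at h4
      exact h4
    exact χ.injOn hU.2 hz.1.2 h3
  have hz₁W : z₁ ∈ (V₁ ∩ (fun w => γ • ψ₁ w) ⁻¹' χ.source) ∩
      (fun w => χ (γ • ψ₁ w)) ⁻¹' e.target := by
    refine ⟨⟨hz₁, ?_⟩, ?_⟩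
    · change γ • ψ₁ z₁ ∈ χ.source
      rw [← heq]
      exact mem_chart_source _ _
    · change χ (γ • ψ₁ z₁) ∈ e.target
      rw [← heq]
      have := e.map_source hze
      rw [hee] at this
      exact this
  have hφz : e.symm (χ (γ • ψ₁ z₁)) = z₂ := by
    rw [← heq]
    have := e.left_inv hze
    rw [hee] at this
    exact this
  have hjac : ∀ z ∈ (V₁ ∩ (fun w => γ • ψ₁ w) ⁻¹' χ.source) ∩
      (fun w => χ (γ • ψ₁ w)) ⁻¹' e.target,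
      jac (b + 1) ψ₂ (e.symm (χ (γ • ψ₁ z))) *
        (fderiv ℂ (fun w => e.symm (χ (γ • ψ₁ w))) z).det =
      jac (b + 1) (fun y : M => γ • y) (ψ₁ z) * jac (b + 1) ψ₁ z := by
    intro z hz
    have hd : MDifferentiableAt 𝓘(ℂ, Fin (b + 1) → ℂ) 𝓘(ℂ, Fin (b + 1) → ℂ)
        (fun w => e.symm (χ (γ • ψ₁ w))) z :=
      mdifferentiableAt_iff_differentiableAt.2 (hφd.differentiableAt (hW'.mem_nhds hz))
    rw [← jac_eq_fderiv, ← jac_comp (g := ψ₂) (f := fun w => e.symm (χ (γ • ψ₁ w)))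
      (hm₂.mdifferentiableAt (hV₂.mem_nhds (hφψ z hz).1)) hd,
      ← jac_comp (g := fun y : M => γ • y) (f := ψ₁) (hD.act.holo γ (ψ₁ z))
      (hm₁.mdifferentiableAt (hV₁.mem_nhds hz.1.1))]
    apply jac_congr
    filter_upwards [hW'.mem_nhds hz] with w hw
    exact (hφψ w hw).2
  have hγ : ∀ x : M, jac (b + 1) (fun y : M => γ • y) x ≠ 0 :=
    fun x => jac_smul_ne_zero hD.act.holo γ x
  have hdφ : ∀ z ∈ (V₁ ∩ (fun w => γ • ψ₁ w) ⁻¹' χ.source) ∩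
      (fun w => χ (γ • ψ₁ w)) ⁻¹' e.target,
      (fderiv ℂ (fun w => e.symm (χ (γ • ψ₁ w))) z).det ≠ 0 := by
    intro z hz h0
    have := hjac z hz
    rw [h0, mul_zero] at this
    exact mul_ne_zero (hγ _) (hj₁ z hz.1.1) this.symm
  refine ⟨_, fun w => e.symm (χ (γ • ψ₁ w)), hW', hz₁W, fun z hz => hz.1.1, hφd,
    fun z hz => (hφψ z hz).1, hφz, hdφ, fun z hz => (hφψ z hz).2, ?_⟩
  intro z hz
  have hp := hD.met.pos
  have e1 := hD.vinv γ (ψ₁ z)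
  have hne2 : ‖(fderiv ℂ (fun w => e.symm (χ (γ • ψ₁ w))) z).det‖ ^ 2 ≠ 0 :=
    pow_ne_zero _ (norm_ne_zero_iff.2 (hdφ z hz))
  have hne1 : v (ψ₂ (e.symm (χ (γ • ψ₁ z)))) * ‖jac (b + 1) ψ₂ (e.symm (χ (γ • ψ₁ z)))‖ ^ 2 ≠ 0 :=
    mul_ne_zero (hp _).ne' (pow_ne_zero _ (norm_ne_zero_iff.2 (hj₂ _ (hφψ z hz).1)))
  simp only [lpot]
  rw [← Real.log_mul hne1 hne2]
  congr 1
  rw [← e1, (hφψ z hz).2, mul_assoc, mul_assoc, ← mul_pow, ← mul_pow, ← norm_mul, ← norm_mul,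
    hjac z hz]

end transition

/-! ### Continuity of `ff` -/

theorem continuousOn_ff (hWIRT : S_WIRT) (hLMF : S_LMF) (hKV : S_KV) {n : ℕ} {W : Set (Cn n)}
    (hW : IsOpen W) {Φ : Cn n → ℝ} (hΦ : ContDiffOn ℝ ∞ Φ W) (hc : CorankOne Φ W) (i : Fin n) :
    ContinuousOn (ff i Φ) (Wi i Φ W) := by
  obtain ⟨-, hadj, hsm, -⟩ := hKV W hW Φ hΦ hc
  obtain ⟨hWo, hkv⟩ := hsm i
  have hsub : Wi i Φ W ⊆ W := fun x hx => hx.1
  have hT : ∀ j l, ContinuousOn (fun x => Tm (kv i Φ) x j l) (Wi i Φ W) := by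
    intro j l
    have hj : ContDiffOn ℝ ∞ (fun y => kv i Φ y j) (Wi i Φ W) := contDiffOn_pi.1 hkv j
    exact ((hWIRT _ hWo _ _ hj hj).1 l).2.continuousOn
  have hq : ContinuousOn (qf (kv i Φ)) (Wi i Φ W) := by
    have : qf (kv i Φ) = fun x => ∑ j, ∑ l, Tm (kv i Φ) x j l * conj (Tm (kv i Φ) x l j) := by
      funext x
      simp only [qf, Matrix.trace, Matrix.diag, Matrix.mul_apply, mc, Matrix.map_apply]
    rw [this]
    refine continuousOn_finsetSum _ fun j _ => continuousOn_finsetSum _ fun l _ => ?_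
    exact (hT j l).mul (Complex.continuous_conj.comp_continuousOn (hT l j))
  have hLM : ContinuousOn (fun x => LM Φ x) W :=
    continuousOn_pi.2 fun j => continuousOn_pi.2 fun k => ((hLMF W hW Φ hΦ).1 j k).continuousOn
  have hadjc : ContinuousOn (fun x => (LM Φ x).adjugate i i) W := by
    have h1 : Continuous fun A : Matrix (Fin n) (Fin n) ℂ => A.adjugate i i :=
      (continuous_id.matrix_adjugate).matrix_elem i i
    exact h1.comp_continuousOn hLM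
  have hre : ContinuousOn (fun x => ((LM Φ x).adjugate i i).re) (Wi i Φ W) :=
    Complex.continuous_re.comp_continuousOn (hadjc.mono hsub)
  have hlaf : ContinuousOn (laf i Φ) (Wi i Φ W) := by
    refine (hΦ.continuousOn.mono hsub).sub (hre.log fun x hx h0 => hx.2 ?_)
    exact Complex.ext h0 ((hadj x hx.1 i).1)
  exact (Complex.continuous_re.comp_continuousOn hq).mul (Real.continuous_exp.comp_continuousOn
    hlaf.neg)

/-! ### The kernel field -/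

theorem kerF (hLMF : S_LMF) (hKV : S_KV) {n : ℕ} {W : Set (Cn n)}
    (hW : IsOpen W) {Φ : Cn n → ℝ} (hΦ : ContDiffOn ℝ ∞ Φ W) (hc : CorankOne Φ W) (i : Fin n) :
    KerF i (LM Φ) (Wi i Φ W) (kv i Φ) := by
  obtain ⟨-, hadj, hsm, hker⟩ := hKV W hW Φ hΦ hc
  obtain ⟨hL1, hL2, hL3, hL4⟩ := hLMF W hW Φ hΦ
  refine ⟨(hsm i).1, fun j k => (hL1 j k).mono fun x hx => hx.1, ?_, fun x hx => hL4 x hx.1,
    (hsm i).2, fun x hx => (hker i x hx).1, fun x hx => (hker i x hx).2.1,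
    fun x hx => (hker i x hx).2.2.1⟩
  intro x hx
  refine Matrix.PosSemidef.of_dotProduct_mulVec_nonneg (hL2 x hx.1) fun e => ?_
  have h1 := hL3 x hx.1 (star e)
  have h2 : star e ⬝ᵥ (LM Φ x *ᵥ e) = hermi (LM Φ x) (star e) (star e) := by
    simp only [dotProduct, Matrix.mulVec, hermi, Finset.mul_sum, Pi.star_apply]
    refine Finset.sum_congr rfl fun a _ => Finset.sum_congr rfl fun c _ => ?_
    rw [← starRingEnd_apply (e c), Complex.conj_conj]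
    ring
  rw [h2, ← h1]
  exact_mod_cast (hc x hx.1).1 (star e)

/-! ### The packet -/

/-- Packet KHOL. -/
theorem khol (hWIRT : S_WIRT) (hLMF : S_LMF) (hKV : S_KV) (hDER : S_DER) (hLA : S_LA)
    (hFINV : S_FINV) (hAMAX : S_AMAX) : S_KHOL.{u, v} := by
  intro b G M _ _ _ _ _ _ h v hD V ψ hψ i
  have hsm : ∀ (V : Set (Cn (b + 1))) (ψ : Cn (b + 1) → M), Par (b + 1) ψ V →
      ContDiffOn ℝ ∞ (lpot (b + 1) v ψ) V := hD.met.smooth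
  -- uniqueness of the value
  have huniq : ∀ (V₁ V₂ : Set (Cn (b + 1))) (ψ₁ ψ₂ : Cn (b + 1) → M), Par (b + 1) ψ₁ V₁ →
      Par (b + 1) ψ₂ V₂ → ∀ (i₁ i₂ : Fin (b + 1)) (z₁ z₂ : Cn (b + 1)) (γ : G),
      z₁ ∈ Wi i₁ (lpot (b + 1) v ψ₁) V₁ → z₂ ∈ Wi i₂ (lpot (b + 1) v ψ₂) V₂ →
      ψ₂ z₂ = γ • ψ₁ z₁ → ff i₁ (lpot (b + 1) v ψ₁) z₁ = ff i₂ (lpot (b + 1) v ψ₂) z₂ := by
    intro V₁ V₂ ψ₁ ψ₂ h₁ h₂ i₁ i₂ z₁ z₂ γ hz₁ hz₂ heq
    obtain ⟨W', φ, hW', hzW, hsub, hφ, hmaps, hφz, hdet, -, hlp⟩ :=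
      transition hD h₁ h₂ hz₁.1 hz₂.1 γ heq
    have := hFINV V₂ W' h₂.1.1 hW' (lpot (b + 1) v ψ₂) (hsm _ _ h₂) (hD.rank _ _ h₂) φ hφ hmaps
      hdet (lpot (b + 1) v ψ₁) hlp i₂ i₁ z₁ ⟨hzW, hz₁.2⟩ (by rw [hφz]; exact hz₂)
    rw [this, hφz]
  -- charts
  have hchart : ∀ p : M, Par (b + 1) (chartAt (Fin (b + 1) → ℂ) p).symm
      (chartAt (Fin (b + 1) → ℂ) p).target := fun p =>
    ⟨⟨(chartAt (Fin (b + 1) → ℂ) p).open_target, mdiff_chart_symm p⟩,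
      fun z hz => jac_chart_symm_ne_zero p hz⟩
  have hidx : ∀ p : M, ∃ i, chartAt (Fin (b + 1) → ℂ) p p ∈
      Wi i (lpot (b + 1) v (chartAt (Fin (b + 1) → ℂ) p).symm)
        (chartAt (Fin (b + 1) → ℂ) p).target := fun p =>
    (hKV _ (hchart p).1.1 _ (hsm _ _ (hchart p)) (hD.rank _ _ (hchart p))).1 _
      (mem_chart_target _ p)
  choose ι hι using hidx
  let F : M → ℝ := fun p => ff (ι p) (lpot (b + 1) v (chartAt (Fin (b + 1) → ℂ) p).symm)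
    (chartAt (Fin (b + 1) → ℂ) p p)
  have hFval : ∀ (V₁ : Set (Cn (b + 1))) (ψ₁ : Cn (b + 1) → M), Par (b + 1) ψ₁ V₁ →
      ∀ (i₁ : Fin (b + 1)) (z₁ : Cn (b + 1)), z₁ ∈ Wi i₁ (lpot (b + 1) v ψ₁) V₁ → ∀ γ : G,
      F (γ • ψ₁ z₁) = ff i₁ (lpot (b + 1) v ψ₁) z₁ := by
    intro V₁ ψ₁ h₁ i₁ z₁ hz₁ γ
    refine (huniq V₁ _ ψ₁ _ h₁ (hchart (γ • ψ₁ z₁)) i₁ (ι _) z₁ _ γ hz₁ (hι _) ?_).symm
    exact (chartAt (Fin (b + 1) → ℂ) (γ • ψ₁ z₁)).left_inv (mem_chart_source _ _)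
  have hFval1 : ∀ (V₁ : Set (Cn (b + 1))) (ψ₁ : Cn (b + 1) → M), Par (b + 1) ψ₁ V₁ →
      ∀ (i₁ : Fin (b + 1)) (z₁ : Cn (b + 1)), z₁ ∈ Wi i₁ (lpot (b + 1) v ψ₁) V₁ →
      F (ψ₁ z₁) = ff i₁ (lpot (b + 1) v ψ₁) z₁ := by
    intro V₁ ψ₁ h₁ i₁ z₁ hz₁
    have := hFval V₁ ψ₁ h₁ i₁ z₁ hz₁ 1
    rwa [one_smul] at this
  have hFinv : ∀ (γ : G) (p : M), F (γ • p) = F p := by
    intro γ p
    have h1 := hFval _ _ (hchart p) (ι p) _ (hι p) γ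
    rw [(chartAt (Fin (b + 1) → ℂ) p).left_inv (mem_chart_source _ _)] at h1
    exact h1
  have hFcont : Continuous F := by
    rw [continuous_iff_continuousAt]
    intro p
    set χ := chartAt (Fin (b + 1) → ℂ) p with hχ
    have hWo : IsOpen (Wi (ι p) (lpot (b + 1) v χ.symm) χ.target) :=
      ((hKV _ (hchart p).1.1 _ (hsm _ _ (hchart p)) (hD.rank _ _ (hchart p))).2.2.1 (ι p)).1
    have hc1 : ContinuousAt (ff (ι p) (lpot (b + 1) v χ.symm)) (χ p) :=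
      (continuousOn_ff hWIRT hLMF hKV (hchart p).1.1 (hsm _ _ (hchart p))
        (hD.rank _ _ (hchart p)) (ι p)).continuousAt (hWo.mem_nhds (hι p))
    have hc2 : ContinuousAt χ p := χ.continuousAt (mem_chart_source _ p)
    have hc3 : ContinuousAt (fun q => ff (ι p) (lpot (b + 1) v χ.symm) (χ q)) p := hc1.comp hc2
    refine hc3.congr ?_
    have hev : ∀ᶠ q in 𝓝 p, χ q ∈ Wi (ι p) (lpot (b + 1) v χ.symm) χ.target :=
      hc2.eventually (hWo.mem_nhds (hι p))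
    filter_upwards [hev, χ.open_source.mem_nhds (mem_chart_source _ p)] with q hq hqs
    have := hFval1 _ _ (hchart p) (ι p) (χ q) hq
    rw [χ.left_inv hqs] at this
    exact this.symm
  have hFnn : ∀ p, 0 ≤ F p := fun p =>
    (hAMAX _ (hchart p).1.1 _ (hsm _ _ (hchart p)) (hD.rank _ _ (hchart p)) (ι p) _ (hι p)).1
  have hF0 : ∀ p, F p = 0 := by
    intro p
    obtain ⟨K, hK, hKc⟩ := hD.act.cocompact
    obtain ⟨γ, hγ⟩ := hKc p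
    obtain ⟨p₀, -, hp₀⟩ := hK.exists_isMaxOn ⟨_, hγ⟩ hFcont.continuousOn
    have hmax : ∀ q, F q ≤ F p₀ := by
      intro q
      obtain ⟨γ', hγ'⟩ := hKc q
      rw [← hFinv γ' q]
      exact hp₀ hγ'
    set χ := chartAt (Fin (b + 1) → ℂ) p₀ with hχ
    have hWo : IsOpen (Wi (ι p₀) (lpot (b + 1) v χ.symm) χ.target) :=
      ((hKV _ (hchart p₀).1.1 _ (hsm _ _ (hchart p₀)) (hD.rank _ _ (hchart p₀))).2.2.1
        (ι p₀)).1
    have hloc : IsLocalMax (ff (ι p₀) (lpot (b + 1) v χ.symm)) (χ p₀) := by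
      filter_upwards [hWo.mem_nhds (hι p₀)] with z hz
      rw [← hFval1 _ _ (hchart p₀) (ι p₀) z hz]
      exact hmax _
    have hz := (hAMAX _ (hchart p₀).1.1 _ (hsm _ _ (hchart p₀)) (hD.rank _ _ (hchart p₀)) (ι p₀) _
      (hι p₀)).2 hloc
    exact le_antisymm ((hmax p).trans hz.le) (hFnn p)
  -- the parametrization `ψ`
  set Φ := lpot (b + 1) v ψ with hΦ
  have hΦs := hsm V ψ hψ
  have hΦr := hD.rank V ψ hψ
  have hK := kerF hLMF hKV hψ.1.1 hΦs hΦr i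
  have hT : ∀ x ∈ Wi i Φ V, Tm (kv i Φ) x = 0 := by
    intro x hx
    have h0 : ff i Φ x = 0 := by rw [← hFval1 V ψ hψ i x hx]; exact hF0 _
    have hre : (qf (kv i Φ) x).re = 0 :=
      (mul_eq_zero.1 h0).resolve_right (Real.exp_pos _).ne'
    obtain ⟨hsym, -, -, -, -, -, hrow⟩ := hDER i (LM Φ) (Wi i Φ V) (kv i Φ) hK x hx
    obtain ⟨him, -, hzero, -⟩ := hLA i (LM Φ x) (kv i Φ x) (hK.herm x hx) (hK.norm x hx)
      (hK.ker x hx) (hK.only x hx) (Tm (kv i Φ) x) (Tm (kv i Φ) x) (fun l => (hrow l).1)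
      (fun l => (hrow l).1) hsym hsym
    exact hzero (Complex.ext hre him)
  refine differentiableOn_pi.2 fun j => ?_
  have hj : ContDiffOn ℝ ∞ (fun y => kv i Φ y j) (Wi i Φ V) := contDiffOn_pi.1 hK.smv j
  refine (hWIRT _ hK.isOpen _ _ hj hj).2.2.2.2.2.1 fun l x hx => ?_
  have := congrFun (congrFun (hT x hx) j) l
  exact this

end Pool.Agent.Helper64.SP
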