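import Pool.Agent.Helper10.SP.GoalsT
import Pool.Agent.Helper62.SP.FINV
import Pool.Agent.Helper63.SP.LA

/-! # Packet SP-BOCH: the Bochner-Kodaira inequality for sections over an étale relation -/

open Complex Metric Set Filter Topology MeasureTheory
open scoped ContDiff ComplexConjugate ComplexOrder Manifold Matrix

namespace Pool.Agent.Helper64.SP

open Pool.Agent.Helper95.Lin Pool.Agent.Helper16.Abund Pool.Agent.Helper92.Orb
open Pool.Agent.Helper10.SP
open Pool.Agent.Helper62.SP (cd_congr cdb_congr cdb_sum lin_exp Jm det_Jm Jm_holo Jdet_holo)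

universe u v

theorem cd_sum {n : ℕ} {W : Set (Cn n)} (hWo : IsOpen W) {ι : Type*}
    (s : Finset ι) (f : ι → Cn n → ℂ) (hf : ∀ j ∈ s, ContDiffOn ℝ ∞ (f j) W) (l : Fin n)
    {x : Cn n} (hx : x ∈ W) :
    cd l (fun y => ∑ j ∈ s, f j y) x = ∑ j ∈ s, cd l (f j) x := by
  classical
  unfold cd
  have hd : ∀ j ∈ s, DifferentiableAt ℝ (f j) x := fun j hj =>
    ((hf j hj).contDiffAt (hWo.mem_nhds hx)).differentiableAt (by simp)
  rw [fderiv_fun_sum hd]
  simp only [sum_apply, Finset.mul_sum, Finset.sum_sub_distrib]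

theorem conj_smooth {n : ℕ} {W : Set (Cn n)} {f : Cn n → ℂ} (hf : ContDiffOn ℝ ∞ f W) :
    ContDiffOn ℝ ∞ (fun y => conj (f y)) W :=
  Complex.conjCLE.contDiff.comp_contDiffOn hf

theorem ofReal_smooth {n : ℕ} {W : Set (Cn n)} {f : Cn n → ℝ} (hf : ContDiffOn ℝ ∞ f W) :
    ContDiffOn ℝ ∞ (fun y => (f y : ℂ)) W :=
  Complex.ofRealCLM.contDiff.comp_contDiffOn hf

/-- The derivative of the logarithm. -/
theorem cd_log {n : ℕ} {T : Set (Cn n)} (hT : IsOpen T) {W : Cn n → ℝ} (hp : ∀ x ∈ T, 0 < W x)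
    (hs : ContDiffOn ℝ ∞ W T) (k : Fin n) {x : Cn n} (hx : x ∈ T) :
    cd k (fun y => (W y : ℂ)) x = (W x : ℂ) * cd k (fun y => ((Real.log (W y) : ℝ) : ℂ)) x := by
  have hd : DifferentiableAt ℝ W x :=
    (hs.contDiffAt (hT.mem_nhds hx)).differentiableAt (by simp)
  have h0 : W x ≠ 0 := (hp x hx).ne'
  have h1 : HasFDerivAt (fun y => (W y : ℂ)) (Complex.ofRealCLM.comp (fderiv ℝ W x)) x :=
    Complex.ofRealCLM.hasFDerivAt.comp x hd.hasFDerivAt
  have h2 : HasFDerivAt (fun y => ((Real.log (W y) : ℝ) : ℂ))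
      (Complex.ofRealCLM.comp ((W x)⁻¹ • fderiv ℝ W x)) x :=
    Complex.ofRealCLM.hasFDerivAt.comp x (hd.hasFDerivAt.log h0)
  unfold cd
  rw [h1.fderiv, h2.fderiv]
  have h3 : (W x : ℂ) ≠ 0 := by exact_mod_cast h0
  simp only [ContinuousLinearMap.comp_apply, Complex.ofRealCLM_apply,
    ContinuousLinearMap.smul_apply, smul_eq_mul, Complex.ofReal_mul, Complex.ofReal_inv]
  field_simp

/-- The pointwise identity. -/
theorem pw (hW : S_WIRT) {n : ℕ} {T : Set (Cn n)} (hT : IsOpen T) (w Lw : Cn n → ℂ)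
    (hw : ContDiffOn ℝ ∞ w T) (hLw : ContDiffOn ℝ ∞ Lw T) (hwr : ∀ y, conj (w y) = w y)
    (hwL : ∀ k, ∀ x ∈ T, cd k w x = w x * cd k Lw x) (v : Fin n → Cn n → ℂ)
    (hv : ∀ k, ContDiffOn ℝ ∞ (v k) T) (δ : Cn n → ℂ) (hδs : ContDiffOn ℝ ∞ δ T)
    (hδ : ∀ x ∈ T, δ x = ∑ k, (cd k (v k) x + v k x * cd k Lw x)) : ∀ x ∈ T,
    w x * (δ x * conj (δ x)) =
      conj (∑ l, cd l (fun y => conj (δ y) * (w y * v l y)) x) -
      w x * (∑ k, ∑ l, cd k (cdb l Lw) x * v k x * conj (v l x)) -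
      ∑ k, cd k (fun y => w y * ∑ l, conj (v l y) * cdb l (v k) y) x +
      w x * ∑ k, ∑ l, cdb l (v k) x * conj (cdb k (v l) x) := by
  intro x hx
  have hcv : ∀ k, ContDiffOn ℝ ∞ (fun y => conj (v k y)) T := fun k => conj_smooth (hv k)
  have hX : ∀ k l, ContDiffOn ℝ ∞ (cdb l (v k)) T := fun k l =>
    ((hW T hT _ _ (hv k) (hv k)).1 l).2
  have hC : ∀ k, ContDiffOn ℝ ∞ (cd k (v k)) T := fun k =>
    ((hW T hT _ _ (hv k) (hv k)).1 k).1
  have hL : ∀ k, ContDiffOn ℝ ∞ (cd k Lw) T := fun k =>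
    ((hW T hT _ _ hLw hLw).1 k).1
  -- divergence of `w v`
  have E2 : ∀ l, cd l (fun y => w y * v l y) x = w x * (cd l (v l) x + v l x * cd l Lw x) := by
    intro l
    rw [((hW T hT _ _ hw (hv l)).2.2.1 l x hx).1, hwL l x hx]
    ring
  have E1 : ∀ l, conj (cd l (fun y => conj (δ y) * (w y * v l y)) x) =
      δ x * conj (cd l (fun y => w y * v l y) x) + w x * conj (v l x) * cdb l δ x := by
    intro l
    have a1 := ((hW T hT _ _ (conj_smooth hδs) (hw.mul (hv l))).2.2.1 l x hx).1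
    have a2 := ((hW T hT _ _ hδs hδs).2.2.2.1 l x hx).1
    rw [a1, a2]
    simp only [map_add, map_mul, Complex.conj_conj, hwr]
  have E3 : ∀ l, cdb l δ x = ∑ k, (cd k (cdb l (v k)) x +
      (v k x * cd k (cdb l Lw) x + cd k Lw x * cdb l (v k) x)) := by
    intro l
    have b1 : δ =ᶠ[𝓝 x] fun y => ∑ k, (cd k (v k) y + v k y * cd k Lw y) := by
      filter_upwards [hT.mem_nhds hx] with y hy
      exact hδ y hy
    rw [cdb_congr l b1, cdb_sum hT Finset.univ (fun k y => cd k (v k) y + v k y * cd k Lw y)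
      (fun k _ => (hC k).add ((hv k).mul (hL k))) l hx]
    refine Finset.sum_congr rfl fun k _ => ?_
    have b2 := ((hW T hT _ _ (hC k) ((hv k).mul (hL k))).2.1 l x hx).2
    have b3 := ((hW T hT _ _ (hv k) (hL k)).2.2.1 l x hx).2
    have b4 := ((hW T hT _ _ (hv k) (hv k)).2.2.2.2.1 k l x hx).2.2
    have b5 := ((hW T hT _ _ hLw hLw).2.2.2.2.1 k l x hx).2.2
    rw [b2, b3, b4, b5]
  have E4 : ∀ k, cd k (fun y => w y * ∑ l, conj (v l y) * cdb l (v k) y) x =
      ∑ l, w x * (conj (v l x) * cd k (cdb l (v k)) x + cdb l (v k) x * conj (cdb k (v l) x) +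
        conj (v l x) * cdb l (v k) x * cd k Lw x) := by
    intro k
    have hs : ContDiffOn ℝ ∞ (fun y => ∑ l, conj (v l y) * cdb l (v k) y) T :=
      ContDiffOn.sum fun l _ => (hcv l).mul (hX k l)
    have c1 := ((hW T hT _ _ hw hs).2.2.1 k x hx).1
    rw [c1, hwL k x hx, cd_sum hT Finset.univ (fun l y => conj (v l y) * cdb l (v k) y)
      (fun l _ => (hcv l).mul (hX k l)) k hx, Finset.mul_sum, Finset.sum_mul,
      ← Finset.sum_add_distrib]
    refine Finset.sum_congr rfl fun l _ => ?_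
    have c2 := ((hW T hT _ _ (hcv l) (hX k l)).2.2.1 k x hx).1
    have c3 := ((hW T hT _ _ (hv l) (hv l)).2.2.2.1 k x hx).1
    rw [c2, c3]
    ring
  have F1 : conj (∑ l, cd l (fun y => conj (δ y) * (w y * v l y)) x) =
      w x * (δ x * conj (δ x)) + ∑ k, ∑ l, w x * conj (v l x) * (cd k (cdb l (v k)) x +
      (v k x * cd k (cdb l Lw) x + cd k Lw x * cdb l (v k) x)) := by
    rw [map_sum, Finset.sum_congr rfl fun l _ => E1 l, Finset.sum_add_distrib,
      ← Finset.mul_sum, ← map_sum, Finset.sum_congr rfl fun l _ => E2 l, ← Finset.mul_sum,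
      ← hδ x hx, map_mul, hwr]
    congr 1
    · ring
    · rw [Finset.sum_comm]
      refine Finset.sum_congr rfl fun l _ => ?_
      rw [E3 l, Finset.mul_sum]
  rw [F1, Finset.sum_congr rfl fun k _ => E4 k]
  have F2 : ∑ k, ∑ l, w x * conj (v l x) * (cd k (cdb l (v k)) x +
      (v k x * cd k (cdb l Lw) x + cd k Lw x * cdb l (v k) x)) =
      w x * (∑ k, ∑ l, cd k (cdb l Lw) x * v k x * conj (v l x)) +
      ∑ k, ∑ l, w x * (conj (v l x) * cd k (cdb l (v k)) x + cdb l (v k) x * conj (cdb k (v l) x) +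
        conj (v l x) * cdb l (v k) x * cd k Lw x) -
      w x * ∑ k, ∑ l, cdb l (v k) x * conj (cdb k (v l) x) := by
    simp only [Finset.mul_sum]
    rw [← Finset.sum_add_distrib, ← Finset.sum_sub_distrib]
    refine Finset.sum_congr rfl fun k _ => ?_
    rw [← Finset.sum_add_distrib, ← Finset.sum_sub_distrib]
    refine Finset.sum_congr rfl fun l _ => ?_
    ring
  rw [F2]
  ring

/-! ## Naturality -/

section nat

variable {n : ℕ} {T : Set (Cn n)} {G : Type u} [Group G] {R : G → Cn n → Cn n → Prop}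
  {H : Cn n → Matrix (Fin n) (Fin n) ℂ}

theorem arr_sub (hE : Et T R) {U : Set (Cn n)} {τ : Cn n → Cn n} (ha : Arr R U τ) :
    U ⊆ T ∧ MapsTo τ U T := by
  obtain ⟨-, -, γ, hγ⟩ := ha
  exact ⟨fun x hx => (hE.mem γ x _ (hγ x hx)).1, fun x hx => (hE.mem γ x _ (hγ x hx)).2⟩

theorem v_smooth (hW : S_WIRT) (hD : S_DETI.{u}) (hK : KEt T R H) {h : Cn n → ℂ}
    (hh : ContDiffOn ℝ ∞ h T) (k : Fin n) : ContDiffOn ℝ ∞ (fun y => vfld H h y k) T := by
  unfold vfld
  refine ContDiffOn.sum fun j _ => ContDiffOn.mul ?_ ?_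
  · exact (hD T R H hK).2.2.1 j k
  · exact ((hW T hK.et.isOpen _ _ hh hh).1 j).2

theorem cdb_pow_holo (hW : S_WIRT) {U : Set (Cn n)} (hU : IsOpen U) {g : Cn n → ℂ}
    (hg : DifferentiableOn ℂ g U) (l : Fin n) {x : Cn n} (hx : x ∈ U) : cdb l g x = 0 := by
  have hs : ContDiffOn ℝ ∞ g U := holo_contDiffOn_real hU hg
  exact (hW U hU g g hs hs).2.2.2.2.2.2 hg l x hx

/-- `∂̄` of an automorphic function. -/
theorem cdb_auto (hW : S_WIRT) (hC : S_WCH) {U : Set (Cn n)} (hT : IsOpen T) (hU : IsOpen U)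
    {τ : Cn n → Cn n} (hτ : DifferentiableOn ℂ τ U) (hm : MapsTo τ U T) {f F g : Cn n → ℂ}
    (hF : ContDiffOn ℝ ∞ F T) (hg : DifferentiableOn ℂ g U)
    (hfF : ∀ y ∈ U, f y = F (τ y) * g y) (l : Fin n) {x : Cn n} (hx : x ∈ U) :
    cdb l f x = g x * ∑ j, conj (fderiv ℂ τ x (Pi.single l 1) j) * cdb j F (τ x) := by
  have h1 : f =ᶠ[𝓝 x] fun y => (F ∘ τ) y * g y := by
    filter_upwards [hU.mem_nhds hx] with y hy
    exact hfF y hy
  have s1 : ContDiffOn ℝ ∞ (F ∘ τ) U := hF.comp (holo_contDiffOn_real hU hτ) hm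
  have s2 : ContDiffOn ℝ ∞ g U := holo_contDiffOn_real hU hg
  rw [cdb_congr l h1, ((hW U hU _ _ s1 s2).2.2.1 l x hx).2, cdb_pow_holo hW hU hg l hx,
    ((hC.1 T U hT hU τ hτ hm).1 F hF l x hx).2]
  ring

theorem nat1 (hW : S_WIRT) (hC : S_WCH) (hD : S_DETI.{u}) (hK : KEt T R H) {m : ℕ} {h : Cn n → ℂ}
    (hs : Sec T R m h) {U : Set (Cn n)} {τ : Cn n → Cn n} (ha : Arr R U τ) {x : Cn n}
    (hx : x ∈ U) : fderiv ℂ τ x (vfld H h x) = (fderiv ℂ τ x).det ^ m • vfld H h (τ x) := by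
  obtain ⟨hUT, hm⟩ := arr_sub hK.et ha
  have hg : DifferentiableOn ℂ (fun y => (fderiv ℂ τ y).det ^ m) U := by
    have h1 := (Jdet_holo ha.1 ha.2.1).pow m
    refine h1.congr fun y _ => ?_
    rw [det_Jm]
    rfl
  have e1 : ∀ p, cdb p h x = (fderiv ℂ τ x).det ^ m *
      ∑ j, conj (fderiv ℂ τ x (Pi.single p 1) j) * cdb j h (τ x) := fun p =>
    cdb_auto hW hC hK.et.isOpen ha.1 ha.2.1 hm hs.1 hg (fun y hy => hs.2 U τ ha y hy) p hx
  have e2 := ((hD T R H hK).2.2.2.2.1 U τ ha x hx).2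
  funext k
  rw [lin_exp, Pi.smul_apply, smul_eq_mul]
  simp only [vfld, e2, e1]
  simp only [Finset.mul_sum, Finset.sum_mul]
  rw [Finset.sum_comm]
  calc ∑ p, ∑ q, ∑ j, (H x)⁻¹ p q * ((fderiv ℂ τ x).det ^ m *
        (conj (fderiv ℂ τ x (Pi.single p 1) j) * cdb j h (τ x))) *
        fderiv ℂ τ x (Pi.single q 1) k
      = ∑ p, ∑ j, ∑ q, (H x)⁻¹ p q * ((fderiv ℂ τ x).det ^ m *
        (conj (fderiv ℂ τ x (Pi.single p 1) j) * cdb j h (τ x))) *
        fderiv ℂ τ x (Pi.single q 1) k := by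
        refine Finset.sum_congr rfl fun p _ => Finset.sum_comm
    _ = ∑ j, ∑ p, ∑ q, (H x)⁻¹ p q * ((fderiv ℂ τ x).det ^ m *
        (conj (fderiv ℂ τ x (Pi.single p 1) j) * cdb j h (τ x))) *
        fderiv ℂ τ x (Pi.single q 1) k := Finset.sum_comm
    _ = _ := by
        refine Finset.sum_congr rfl fun j _ => Finset.sum_congr rfl fun p _ =>
          Finset.sum_congr rfl fun q _ => ?_
        ring

/-- The vector field `∇_{v̄} v`. -/
noncomputable def zf (v : Cn n → Cn n) (x : Cn n) : Cn n := fun k =>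
  ∑ l, conj (v x l) * cdb l (fun y => v y k) x

theorem nat2 (hW : S_WIRT) (hC : S_WCH) (hD : S_DETI.{u}) (hK : KEt T R H) {m : ℕ} {h : Cn n → ℂ}
    (hs : Sec T R m h) {U : Set (Cn n)} {τ : Cn n → Cn n} (ha : Arr R U τ) {x : Cn n}
    (hx : x ∈ U) : fderiv ℂ τ x (zf (vfld H h) x) =
      ((‖(fderiv ℂ τ x).det‖ ^ (2 * m) : ℝ) : ℂ) • zf (vfld H h) (τ x) := by
  obtain ⟨hUT, hm⟩ := arr_sub hK.et ha
  have hg : DifferentiableOn ℂ (fun y => (fderiv ℂ τ y).det ^ m) U := by
    have h1 := (Jdet_holo ha.1 ha.2.1).pow m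
    refine h1.congr fun y _ => ?_
    rw [det_Jm]
    rfl
  have hvs : ∀ k, ContDiffOn ℝ ∞ (fun y => vfld H h y k) T := fun k => v_smooth hW hD hK hs.1 k
  funext k
  have e0 : ∀ y ∈ U, ∑ q, vfld H h y q * fderiv ℂ τ y (Pi.single q 1) k =
      vfld H h (τ y) k * (fderiv ℂ τ y).det ^ m := by
    intro y hy
    have := congrFun (nat1 hW hC hD hK hs ha hy) k
    rw [lin_exp, Pi.smul_apply, smul_eq_mul] at this
    rw [this, mul_comm]
  have e1 : ∀ l, ∑ q, cdb l (fun y => vfld H h y q) x * fderiv ℂ τ x (Pi.single q 1) k =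
      (fderiv ℂ τ x).det ^ m * ∑ j, conj (fderiv ℂ τ x (Pi.single l 1) j) *
        cdb j (fun y => vfld H h y k) (τ x) := by
    intro l
    rw [← cdb_auto hW hC hK.et.isOpen ha.1 ha.2.1 hm (hvs k) hg e0 l hx]
    have hJ : ∀ q, DifferentiableOn ℂ (fun y => fderiv ℂ τ y (Pi.single q 1) k) U := fun q =>
      Jm_holo ha.1 ha.2.1 q k
    have hJs : ∀ q, ContDiffOn ℝ ∞ (fun y => fderiv ℂ τ y (Pi.single q 1) k) U := fun q =>
      holo_contDiffOn_real ha.1 (hJ q)
    rw [cdb_sum ha.1 Finset.univ (fun q y => vfld H h y q * fderiv ℂ τ y (Pi.single q 1) k)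
      (fun q _ => ((hvs q).mono hUT).mul (hJs q)) l hx]
    refine Finset.sum_congr rfl fun q _ => ?_
    rw [((hW U ha.1 _ _ ((hvs q).mono hUT) (hJs q)).2.2.1 l x hx).2,
      cdb_pow_holo hW ha.1 (hJ q) l hx]
    ring
  have e2 : ∀ j, ∑ l, vfld H h x l * fderiv ℂ τ x (Pi.single l 1) j =
      (fderiv ℂ τ x).det ^ m * vfld H h (τ x) j := by
    intro j
    have := congrFun (nat1 hW hC hD hK hs ha hx) j
    rwa [lin_exp, Pi.smul_apply, smul_eq_mul] at this
  have e3 : ((‖(fderiv ℂ τ x).det‖ ^ (2 * m) : ℝ) : ℂ) =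
      (fderiv ℂ τ x).det ^ m * conj ((fderiv ℂ τ x).det ^ m) := by
    rw [Complex.mul_conj, Complex.normSq_eq_norm_sq, norm_pow, pow_mul']
  rw [lin_exp, Pi.smul_apply, smul_eq_mul]
  calc ∑ q, zf (vfld H h) x q * fderiv ℂ τ x (Pi.single q 1) k
      = ∑ l, conj (vfld H h x l) *
        ∑ q, cdb l (fun y => vfld H h y q) x * fderiv ℂ τ x (Pi.single q 1) k := by
        simp only [zf, Finset.sum_mul, Finset.mul_sum]
        rw [Finset.sum_comm]
        refine Finset.sum_congr rfl fun l _ => Finset.sum_congr rfl fun q _ => ?_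
        ring
    _ = ∑ l, conj (vfld H h x l) * ((fderiv ℂ τ x).det ^ m *
        ∑ j, conj (fderiv ℂ τ x (Pi.single l 1) j) *
        cdb j (fun y => vfld H h y k) (τ x)) := by
        refine Finset.sum_congr rfl fun l _ => ?_
        rw [e1 l]
    _ = (fderiv ℂ τ x).det ^ m * ∑ j, conj (∑ l, vfld H h x l *
        fderiv ℂ τ x (Pi.single l 1) j) * cdb j (fun y => vfld H h y k) (τ x) := by
        simp only [Finset.mul_sum, map_sum, map_mul, Finset.sum_mul]
        rw [Finset.sum_comm]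
        refine Finset.sum_congr rfl fun j _ => Finset.sum_congr rfl fun l _ => ?_
        ring
    _ = _ := by
        simp only [e2, e3, zf, Finset.mul_sum]
        refine Finset.sum_congr rfl fun j _ => ?_
        rw [map_mul]
        ring

end nat

/-! ## Integration -/

theorem test_integrable {n : ℕ} {T : Set (Cn n)} (hT : IsOpen T) {κ : Cn n → ℝ} (hκ : TestF T κ)
    {F : Cn n → ℂ} (hF : ContinuousOn F T) : IntegrableOn (fun x => (κ x : ℂ) * F x) T := by
  have h1 : IntegrableOn (fun x => (κ x : ℂ) * F x) (tsupport κ) := by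
    refine ContinuousOn.integrableOn_compact hκ.2.1 ?_
    refine ContinuousOn.mul ?_ (hF.mono hκ.2.2)
    exact (Complex.continuous_ofReal.comp hκ.1.continuous).continuousOn
  refine h1.of_forall_diff_eq_zero hT.measurableSet fun x hx => ?_
  rw [image_eq_zero_of_notMem_tsupport hx.2]
  simp

theorem boch (hWIRT : S_WIRT) (hWCH : S_WCH) (hLMF : S_LMF) (hDETI : S_DETI.{u})
    (hDIVC : S_DIVC.{u}) (hBOX : S_BOX.{u}) : S_BOCH.{u} := by
  intro n T G _ R H hK κ hκ m W hWt h hh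
  have hT := hK.et.isOpen
  set w : Cn n → ℂ := fun y => (W y : ℂ) with hw
  set Lw : Cn n → ℂ := fun y => ((Real.log (W y) : ℝ) : ℂ) with hLw
  set v : Fin n → Cn n → ℂ := fun k y => vfld H h y k with hv
  set δ : Cn n → ℂ := fun y => - boxO H W h y with hδ
  have hws : ContDiffOn ℝ ∞ w T := ofReal_smooth hWt.smooth
  have hlogs : ContDiffOn ℝ ∞ (fun y => Real.log (W y)) T :=
    hWt.smooth.log fun x hx => (hWt.pos x hx).ne'
  have hLws : ContDiffOn ℝ ∞ Lw T := ofReal_smooth hlogs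
  have hvs : ∀ k, ContDiffOn ℝ ∞ (v k) T := fun k => v_smooth hWIRT hDETI hK hh.1 k
  have hbox := (hBOX T R H hK κ hκ m W hWt h h hh hh).1
  have hδs : ContDiffOn ℝ ∞ δ T := hbox.1.neg
  have hwL : ∀ k, ∀ x ∈ T, cd k w x = w x * cd k Lw x := fun k x hx =>
    cd_log hT hWt.pos hWt.smooth k hx
  have hw0 : ∀ x ∈ T, w x ≠ 0 := fun x hx => by
    have := (hWt.pos x hx).ne'
    simp only [hw]
    exact_mod_cast this
  have hδe : ∀ x ∈ T, δ x = ∑ k, (cd k (v k) x + v k x * cd k Lw x) := by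
    intro x hx
    have e1 : δ x = (w x)⁻¹ * ∑ k, cd k (fun y => w y * v k y) x := by
      simp only [hδ, boxO, neg_neg, hw, hv]
    have e2 : ∀ k, cd k (fun y => w y * v k y) x = w x * (cd k (v k) x + v k x * cd k Lw x) := by
      intro k
      rw [((hWIRT T hT _ _ hws (hvs k)).2.2.1 k x hx).1, hwL k x hx]
      ring
    rw [e1, Finset.sum_congr rfl fun k _ => e2 k, ← Finset.mul_sum, ← mul_assoc,
      inv_mul_cancel₀ (hw0 x hx), one_mul]
  have hpw := pw hWIRT hT w Lw hws hLws (fun y => Complex.conj_ofReal _) hwL v hvs δ hδs hδe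
  -- the two vector fields
  have hWc : ∀ U τ, Arr R U τ → ∀ x ∈ U, ((‖(fderiv ℂ τ x).det‖ ^ 2 : ℝ) : ℂ) * w (τ x) =
      w x * ((‖(fderiv ℂ τ x).det‖ ^ (2 * m) : ℝ) : ℂ) := by
    intro U τ ha x hx
    have := hWt.inv U τ ha x hx
    simp only [hw]
    rw [← Complex.ofReal_mul, ← Complex.ofReal_mul, ← this, mul_comm]
  have hdiv1 : ∫ x in T, (κ x : ℂ) * ∑ l, cd l (fun y => conj (δ y) * (w y * v l y)) x = 0 := by
    refine hDIVC T R H hK κ hκ (fun y l => conj (δ y) * (w y * v l y)) ?_ ?_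
    · rw [contDiffOn_pi]
      exact fun l => (conj_smooth hδs).mul (hws.mul (hvs l))
    · intro U τ ha x hx
      have e1 : (fun l => conj (δ x) * (w x * v l x)) = (conj (δ x) * w x) • vfld H h x := by
        funext l
        simp only [hv, Pi.smul_apply, smul_eq_mul]
        ring
      have e2 : δ x = δ (τ x) * (fderiv ℂ τ x).det ^ m := by
        simp only [hδ]
        rw [hbox.2 U τ ha x hx]
        ring
      have e3 : ((‖(fderiv ℂ τ x).det‖ ^ (2 * m) : ℝ) : ℂ) =
          (fderiv ℂ τ x).det ^ m * conj ((fderiv ℂ τ x).det ^ m) := by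
        rw [Complex.mul_conj, Complex.normSq_eq_norm_sq, norm_pow, pow_mul']
      rw [e1, map_smul, nat1 hWIRT hWCH hDETI hK hh ha hx]
      funext l
      simp only [Pi.smul_apply, smul_eq_mul, hv]
      have e4 := hWc U τ ha x hx
      rw [e3] at e4
      rw [e2, map_mul]
      calc conj (δ (τ x)) * conj ((fderiv ℂ τ x).det ^ m) * w x *
            ((fderiv ℂ τ x).det ^ m * vfld H h (τ x) l)
          = (w x * ((fderiv ℂ τ x).det ^ m * conj ((fderiv ℂ τ x).det ^ m))) *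
            (conj (δ (τ x)) * vfld H h (τ x) l) := by ring
        _ = _ := by rw [← e4]; ring
  have hdiv2 : ∫ x in T, (κ x : ℂ) *
      ∑ k, cd k (fun y => w y * ∑ l, conj (v l y) * cdb l (v k) y) x = 0 := by
    refine hDIVC T R H hK κ hκ (fun y k => w y * ∑ l, conj (v l y) * cdb l (v k) y) ?_ ?_
    · rw [contDiffOn_pi]
      exact fun k => hws.mul (ContDiffOn.sum fun l _ => (conj_smooth (hvs l)).mul
        ((hWIRT T hT _ _ (hvs k) (hvs k)).1 l).2)
    · intro U τ ha x hx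
      have e1 : (fun k => w x * ∑ l, conj (v l x) * cdb l (v k) x) =
          w x • zf (vfld H h) x := by
        funext k
        simp only [hv, Pi.smul_apply, smul_eq_mul, zf]
      rw [e1, map_smul, nat2 hWIRT hWCH hDETI hK hh ha hx]
      funext k
      simp only [Pi.smul_apply, smul_eq_mul, zf, hv]
      have e4 := hWc U τ ha x hx
      rw [← mul_assoc, ← mul_assoc, e4]
  -- positivity of the last term
  have htr : ∀ x ∈ T, (Matrix.trace ((Matrix.of fun k l => cdb l (v k) x) *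
      mc (Matrix.of fun k l => cdb l (v k) x))).im = 0 ∧
      0 ≤ (Matrix.trace ((Matrix.of fun k l => cdb l (v k) x) *
      mc (Matrix.of fun k l => cdb l (v k) x))).re := by
    intro x hx
    have hsym : ((H x)ᵀ * (Matrix.of fun k l => cdb l (v k) x)).IsSymm := by
      have e1 : ∀ k, ∀ y ∈ T, ∑ j, H y j k * v j y = cdb k h y := by
        intro k y hy
        have hKH : (H y)⁻¹ * H y = 1 := by
          have := ((hDETI T R H hK).1 y hy).2.2.2
          exact mul_eq_one_comm.1 this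
        simp only [hv, vfld, Finset.mul_sum]
        rw [Finset.sum_comm]
        have e2 : ∀ p, ∑ j, H y j k * ((H y)⁻¹ p j * cdb p h y) =
            ((H y)⁻¹ * H y) p k * cdb p h y := by
          intro p
          rw [Matrix.mul_apply, Finset.sum_mul]
          refine Finset.sum_congr rfl fun j _ => ?_
          ring
        rw [Finset.sum_congr rfl fun p _ => e2 p, hKH]
        simp [Matrix.one_apply]
      have e2 : ∀ k l, ((H x)ᵀ * (Matrix.of fun k l => cdb l (v k) x)) k l =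
          cdb l (cdb k h) x - ∑ j, v j x * cdb l (fun y => H y j k) x := by
        intro k l
        have f1 : cdb k h =ᶠ[𝓝 x] fun y => ∑ j, H y j k * v j y := by
          filter_upwards [hT.mem_nhds hx] with y hy
          exact (e1 k y hy).symm
        rw [cdb_congr l f1, cdb_sum hT Finset.univ (fun j y => H y j k * v j y)
          (fun j _ => (hK.smooth j k).mul (hvs j)) l hx, Matrix.mul_apply,
          ← Finset.sum_sub_distrib]
        refine Finset.sum_congr rfl fun j _ => ?_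
        rw [((hWIRT T hT _ _ (hK.smooth j k) (hvs j)).2.2.1 l x hx).2]
        simp only [Matrix.transpose_apply, Matrix.of_apply]
        ring
      ext k l
      rw [Matrix.transpose_apply, e2, e2]
      congr 1
      · exact ((hWIRT T hT _ _ hh.1 hh.1).2.2.2.2.1 k l x hx).2.1
      · refine Finset.sum_congr rfl fun j _ => ?_
        rw [(hDETI T R H hK).2.2.2.1 x hx j l k]
    have hpd : ((H x)ᵀ).PosDef := (hK.posDef x hx).transpose
    have := Pool.Agent.Helper63.SP.core2 hpd _ _ hsym hsym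
    exact ⟨this.1, this.2.1⟩
  -- the real identity
  set tr : Cn n → ℝ := fun x => (∑ k, ∑ l, cdb l (v k) x * conj (cdb k (v l) x)).re with htrd
  have htr' : ∀ x ∈ T, (∑ k, ∑ l, cdb l (v k) x * conj (cdb k (v l) x)) = (tr x : ℂ) ∧
      0 ≤ tr x := by
    intro x hx
    have e1 : Matrix.trace ((Matrix.of fun k l => cdb l (v k) x) *
        mc (Matrix.of fun k l => cdb l (v k) x)) =
        ∑ k, ∑ l, cdb l (v k) x * conj (cdb k (v l) x) := by
      simp only [Matrix.trace, Matrix.diag, Matrix.mul_apply, mc, Matrix.map_apply,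
        Matrix.of_apply]
    have e2 := htr x hx
    rw [e1] at e2
    refine ⟨?_, e2.2⟩
    refine Complex.ext ?_ ?_
    · rw [Complex.ofReal_re]
    · rw [e2.1, Complex.ofReal_im]
  have hlev : ∀ x ∈ T, ∑ k, ∑ l, cd k (cdb l Lw) x * v k x * conj (v l x) =
      ((lev (fun y => Real.log (W y)) x (vfld H h x) : ℝ) : ℂ) := by
    intro x hx
    rw [(hLMF T hT _ hlogs).2.2.1 x hx]
    rfl
  -- continuity
  have hXs : ∀ k l, ContDiffOn ℝ ∞ (cdb l (v k)) T := fun k l =>
    ((hWIRT T hT _ _ (hvs k) (hvs k)).1 l).2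
  have c1 : ContinuousOn (fun x => ∑ l, cd l (fun y => conj (δ y) * (w y * v l y)) x) T := by
    refine (ContDiffOn.sum fun l _ => ?_).continuousOn (n := (∞ : WithTop ℕ∞)) (𝕜 := ℝ)
    have := (conj_smooth hδs).mul (hws.mul (hvs l))
    exact ((hWIRT T hT _ _ this this).1 l).1
  have c2 : ContinuousOn (fun x => ∑ k, cd k (fun y => w y * ∑ l, conj (v l y) *
      cdb l (v k) y) x) T := by
    refine (ContDiffOn.sum fun k _ => ?_).continuousOn (n := (∞ : WithTop ℕ∞)) (𝕜 := ℝ)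
    have : ContDiffOn ℝ ∞ (fun y => w y * ∑ l, conj (v l y) * cdb l (v k) y) T :=
      hws.mul (ContDiffOn.sum fun l _ => (conj_smooth (hvs l)).mul (hXs k l))
    exact ((hWIRT T hT _ _ this this).1 k).1
  have c3 : ContinuousOn (fun x => w x * ∑ k, ∑ l, cd k (cdb l Lw) x * v k x * conj (v l x)) T := by
    refine (hws.mul (ContDiffOn.sum fun k _ => ContDiffOn.sum fun l _ => ?_)).continuousOn
    have a1 := ((hWIRT T hT _ _ hLws hLws).1 l).2
    exact (((hWIRT T hT _ _ a1 a1).1 k).1.mul (hvs k)).mul (conj_smooth (hvs l))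
  have c4 : ContinuousOn (fun x => w x * ∑ k, ∑ l, cdb l (v k) x * conj (cdb k (v l) x)) T := by
    refine (hws.mul (ContDiffOn.sum fun k _ => ContDiffOn.sum fun l _ => ?_)).continuousOn
    exact (hXs k l).mul (conj_smooth (hXs l k))
  have i1 := test_integrable hT hκ.test (F := fun x => conj (∑ l, cd l (fun y =>
    conj (δ y) * (w y * v l y)) x)) (Complex.continuous_conj.comp_continuousOn c1)
  have i2 := test_integrable hT hκ.test c2
  have i3 := test_integrable hT hκ.test c3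
  have i4 := test_integrable hT hκ.test c4
  have hconj : ∫ x in T, (κ x : ℂ) * conj (∑ l, cd l (fun y => conj (δ y) * (w y * v l y)) x)
      = 0 := by
    have e1 : (fun x => (κ x : ℂ) * conj (∑ l, cd l (fun y => conj (δ y) * (w y * v l y)) x)) =
        fun x => conj ((κ x : ℂ) * ∑ l, cd l (fun y => conj (δ y) * (w y * v l y)) x) := by
      funext x
      rw [map_mul, Complex.conj_ofReal]
    rw [e1, integral_conj, hdiv1, map_zero]
  have key4 : ∀ f1 f3 f2 f4 : Cn n → ℂ, IntegrableOn f1 T → IntegrableOn f3 T →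
      IntegrableOn f2 T → IntegrableOn f4 T →
      ∫ x in T, (f1 x - f3 x - f2 x + f4 x) =
        (∫ x in T, f1 x) - (∫ x in T, f3 x) - (∫ x in T, f2 x) + ∫ x in T, f4 x := by
    intro f1 f3 f2 f4 h1 h3 h2 h4
    have a1 := integral_sub h1 h3
    have a2 := integral_sub (h1.sub h3) h2
    have a3 := integral_add ((h1.sub h3).sub h2) h4
    simp only [Pi.sub_apply] at a2 a3
    rw [a3, a2, a1]
  have hmain : ∫ x in T, (κ x : ℂ) * (w x * (δ x * conj (δ x))) =
      - (∫ x in T, (κ x : ℂ) * (w x * ∑ k, ∑ l, cd k (cdb l Lw) x * v k x * conj (v l x))) +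
      ∫ x in T, (κ x : ℂ) * (w x * ∑ k, ∑ l, cdb l (v k) x * conj (cdb k (v l) x)) := by
    have e1 : ∫ x in T, (κ x : ℂ) * (w x * (δ x * conj (δ x))) =
        ∫ x in T, ((κ x : ℂ) * conj (∑ l, cd l (fun y => conj (δ y) * (w y * v l y)) x) -
            (κ x : ℂ) * (w x * ∑ k, ∑ l, cd k (cdb l Lw) x * v k x * conj (v l x)) -
            (κ x : ℂ) * ∑ k, cd k (fun y => w y * ∑ l, conj (v l y) * cdb l (v k) y) x +
            (κ x : ℂ) * (w x * ∑ k, ∑ l, cdb l (v k) x * conj (cdb k (v l) x))) := by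
      refine setIntegral_congr_fun hT.measurableSet fun x hx => ?_
      show (κ x : ℂ) * (w x * (δ x * conj (δ x))) = _
      rw [hpw x hx]
      ring
    rw [e1, key4 _ _ _ _ i1 i3 i2 i4, hconj, hdiv2]
    ring
  have r0 : ((nsE T κ W (boxO H W h) : ℝ) : ℂ) =
      ∫ x in T, (κ x : ℂ) * (w x * (δ x * conj (δ x))) := by
    unfold nsE
    rw [← integral_complex_ofReal]
    refine setIntegral_congr_fun hT.measurableSet fun x _ => ?_
    simp only [hδ, hw, Complex.mul_conj, Complex.normSq_eq_norm_sq, norm_neg]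
    push_cast
    ring
  have r1 : ((∫ x in T, κ x * W x * (- lev (fun y => Real.log (W y)) x (vfld H h x)) : ℝ) : ℂ) =
      - (∫ x in T, (κ x : ℂ) * (w x * ∑ k, ∑ l, cd k (cdb l Lw) x * v k x * conj (v l x))) := by
    rw [← integral_complex_ofReal, ← integral_neg]
    refine setIntegral_congr_fun hT.measurableSet fun x hx => ?_
    rw [hlev x hx]
    simp only [hw]
    push_cast
    ring
  have r2 : ((∫ x in T, κ x * (W x * tr x) : ℝ) : ℂ) =
      ∫ x in T, (κ x : ℂ) * (w x * ∑ k, ∑ l, cdb l (v k) x * conj (cdb k (v l) x)) := by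
    rw [← integral_complex_ofReal]
    refine setIntegral_congr_fun hT.measurableSet fun x hx => ?_
    rw [(htr' x hx).1]
    simp only [hw]
    push_cast
    ring
  have r3 : nsE T κ W (boxO H W h) =
      (∫ x in T, κ x * W x * (- lev (fun y => Real.log (W y)) x (vfld H h x))) +
      ∫ x in T, κ x * (W x * tr x) := by
    apply Complex.ofReal_injective
    rw [Complex.ofReal_add, r0, r1, r2, hmain]
  rw [r3]
  have r4 : 0 ≤ ∫ x in T, κ x * (W x * tr x) :=
    setIntegral_nonneg hT.measurableSet fun x hx =>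
      mul_nonneg (hκ.nonneg x) (mul_nonneg (hWt.pos x hx).le (htr' x hx).2)
  linarith

end Pool.Agent.Helper64.SP
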