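import Pool.Agent.Helper82.SP.GoalsB

/-!
# Packet SP B15: Baire category
-/

set_option autoImplicit false

namespace Pool.Agent.Helper64.SP

open Matrix Real
open Pool.Agent.Helper26.LU (V M3 SO3 isCompact_SO3)
open Pool.Agent.Helper82.SP

theorem goalB15 : G_B15 := by
  intro v K ι _ κ b g hK hadm hcov
  have hKf : IsCompact (frontier K) :=
    hK.of_isClosed_subset isClosed_frontier hK.isClosed.frontier_subset
  have hcont1 : Continuous fun z : V × M3 => z.1 - z.2 *ᵥ v 0 := by fun_prop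
  have hTc : IsCompact ((fun z : V × M3 => z.1 - z.2 *ᵥ v 0) '' (frontier K ×ˢ (SO3 : Set M3))) :=
    (hKf.prod isCompact_SO3).image hcont1
  let S : (Fin 4 → ι) → Set (V × ↥SO3) := fun J =>
    {z | ∀ i, (z.2 : M3) *ᵥ v i + z.1 ∈ frontier K ∧
      Qd (κ (J i)) (b (J i)) (g (J i)) ((z.2 : M3) *ᵥ v i + z.1) = 0}
  have hact : ∀ x : V, Continuous fun z : V × ↥SO3 => (z.2 : M3) *ᵥ x + z.1 := by
    intro x
    have h1 : Continuous fun M : M3 => M *ᵥ x := by fun_prop
    exact (h1.comp (continuous_subtype_val.comp continuous_snd)).add continuous_fst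
  have hQ : ∀ (k : ℝ) (c : V) (d : ℝ), Continuous fun x : V => Qd k c d x := by
    intro k c d
    unfold Qd
    fun_prop
  have hScl : ∀ J, IsClosed (S J) := by
    intro J
    have : S J = ⋂ i, ({z : V × ↥SO3 | (z.2 : M3) *ᵥ v i + z.1 ∈ frontier K} ∩
        {z | Qd (κ (J i)) (b (J i)) (g (J i)) ((z.2 : M3) *ᵥ v i + z.1) = 0}) := by
      ext z
      simp [S]
    rw [this]
    exact isClosed_iInter fun i => (isClosed_frontier.preimage (hact (v i))).inter
      (isClosed_eq ((hQ _ _ _).comp (hact (v i))) continuous_const)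
  have hSc : ∀ J, IsCompact (S J) := by
    intro J
    refine IsCompact.of_isClosed_subset (hTc.prod (isCompact_univ : IsCompact (Set.univ : Set ↥SO3)))
      (hScl J) ?_
    intro z hz
    refine ⟨⟨((z.2 : M3) *ᵥ v 0 + z.1, (z.2 : M3)), ⟨(hz 0).1, z.2.2⟩, ?_⟩, Set.mem_univ _⟩
    simp
  have hne : Nonempty ↥SO3 := ⟨1⟩
  obtain ⟨J, hJ⟩ := nonempty_interior_of_iUnion_of_closed
    (f := fun J => Prod.snd '' S J) (fun J => ((hSc J).image continuous_snd).isClosed) (by
      rw [Set.eq_univ_iff_forall]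
      intro R
      obtain ⟨t, ht⟩ := hadm R R.2
      choose J hJ using fun i => hcov _ (ht i)
      exact Set.mem_iUnion.2 ⟨J, (t, R), fun i => ⟨ht i, hJ i⟩, rfl⟩)
  obtain ⟨U, hU, hUe⟩ := isOpen_induced_iff.1 (isOpen_interior (s := Prod.snd '' S J))
  refine ⟨J, U, hU, ?_, ?_⟩
  · obtain ⟨R, hR⟩ := hJ
    rw [← hUe] at hR
    exact ⟨R, hR, R.2⟩
  · intro R hRU hR
    have h1 : (⟨R, hR⟩ : ↥SO3) ∈ interior (Prod.snd '' S J) := by
      rw [← hUe]
      exact hRU
    obtain ⟨⟨t, R'⟩, hz, he⟩ := interior_subset h1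
    have he' : R' = ⟨R, hR⟩ := he
    subst he'
    exact ⟨t, hz⟩

end Pool.Agent.Helper64.SP
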